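import Pool.Agent.W667.DT.Stms

/-!
# DT-MODELS: chains of models
-/

set_option autoImplicit false

namespace Pool.Agent.W340.DT
open Pool.Agent.W667.DT Cardinal Set

section gen

variable {X : Type} (Op : ℕ → Set X → Set X → Set X → Set X)

/-- the closure of a family under the operations -/
inductive Gen (G : Set (Set X)) : Set X → Prop
  | base {C : Set X} : C ∈ G → Gen G C
  | op (n : ℕ) {C D E : Set X} : Gen G C → Gen G D → Gen G E → Gen G (Op n C D E)

/-- as a set -/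
def cl (G : Set (Set X)) : Set (Set X) := {C | Gen Op G C}

/-- closed families -/
def Clo (M : Set (Set X)) : Prop := ∀ n, ∀ C ∈ M, ∀ D ∈ M, ∀ E ∈ M, Op n C D E ∈ M

theorem clo_cl (G : Set (Set X)) : Clo Op (cl Op G) := fun n _ hC _ hD _ hE => Gen.op n hC hD hE

theorem sub_cl (G : Set (Set X)) : G ⊆ cl Op G := fun _ h => Gen.base h

theorem cl_sub {G M : Set (Set X)} (hM : Clo Op M) (h : G ⊆ M) : cl Op G ⊆ M := by
  intro C hC
  induction hC with
  | base h' => exact h h'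
  | op n _ _ _ h1 h2 h3 => exact hM n _ h1 _ h2 _ h3

theorem cl_mono {G G' : Set (Set X)} (h : G ⊆ G') : cl Op G ⊆ cl Op G' :=
  cl_sub Op (clo_cl Op G') (h.trans (sub_cl Op G'))

/-- one step -/
def stp (G : Set (Set X)) : Set (Set X) :=
  G ∪ (fun q : ℕ × Set X × Set X × Set X => Op q.1 q.2.1 q.2.2.1 q.2.2.2) ''
    ((univ : Set ℕ) ×ˢ G ×ˢ G ×ˢ G)

theorem mk_stp {G : Set (Set X)} {κ : Cardinal} (hκ : ℵ₀ ≤ κ) (h : #G ≤ κ) : #(stp Op G) ≤ κ := by
  unfold stp
  refine (mk_union_le _ _).trans (add_le_of_le hκ h (mk_image_le.trans ?_))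
  rw [mk_setProd, mk_setProd, mk_setProd]
  simp only [mk_univ, mk_nat]
  exact mul_le_of_le hκ hκ (mul_le_of_le hκ h (mul_le_of_le hκ h h))

/-- the stages -/
def stg (G : Set (Set X)) : ℕ → Set (Set X)
  | 0 => G
  | n + 1 => stp Op (stg G n)

theorem stg_mono (G : Set (Set X)) : Monotone (stg Op G) :=
  monotone_nat_of_le_succ fun _ => subset_union_left

theorem mk_cl {G : Set (Set X)} {κ : Cardinal} (hκ : ℵ₀ ≤ κ) (h : #G ≤ κ) : #(cl Op G) ≤ κ := by
  have h1 : ∀ n, #(stg Op G n) ≤ κ := fun n => by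
    induction n with
    | zero => exact h
    | succ n ih => exact mk_stp Op hκ ih
  have h2 : cl Op G ⊆ ⋃ n, stg Op G n := by
    apply cl_sub
    · intro n C hC D hD E hE
      obtain ⟨a, ha⟩ := mem_iUnion.1 hC
      obtain ⟨b, hb⟩ := mem_iUnion.1 hD
      obtain ⟨c, hc⟩ := mem_iUnion.1 hE
      refine mem_iUnion.2 ⟨max a (max b c) + 1, Or.inr ⟨(n, C, D, E), ⟨mem_univ _, ?_, ?_, ?_⟩, rfl⟩⟩
      · exact stg_mono Op G (le_max_left _ _) ha
      · exact stg_mono Op G ((le_max_left _ _).trans (le_max_right _ _)) hb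
      · exact stg_mono Op G ((le_max_right _ _).trans (le_max_right _ _)) hc
    · exact fun C hC => mem_iUnion.2 ⟨0, hC⟩
  refine (mk_le_mk_of_subset h2).trans ((mk_iUnion_le _).trans ?_)
  rw [mk_nat]
  exact mul_le_of_le hκ hκ (ciSup_le' h1)

/-- the closure is finitary -/
theorem cl_dir {A : Type} [LinearOrder A] (e : A → Set X) (a : A) {C : Set X}
    (h : C ∈ cl Op (e '' Iio a)) : ∃ a' < a, C ∈ cl Op (e '' Iic a') := by
  induction h with
  | base h =>
    obtain ⟨a', ha', rfl⟩ := h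
    exact ⟨a', ha', Gen.base ⟨a', le_refl _, rfl⟩⟩
  | op n _ _ _ h1 h2 h3 =>
    obtain ⟨a1, ha1, h1⟩ := h1
    obtain ⟨a2, ha2, h2⟩ := h2
    obtain ⟨a3, ha3, h3⟩ := h3
    refine ⟨max a1 (max a2 a3), max_lt ha1 (max_lt ha2 ha3), Gen.op n ?_ ?_ ?_⟩
    · exact cl_mono Op (image_mono (Iic_subset_Iic.2 (le_max_left _ _))) h1
    · exact cl_mono Op (image_mono (Iic_subset_Iic.2
        ((le_max_left _ _).trans (le_max_right _ _)))) h2
    · exact cl_mono Op (image_mono (Iic_subset_Iic.2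
        ((le_max_right _ _).trans (le_max_right _ _)))) h3

/-- removing the sets `V 0, …, V (n-1)` -/
def dd (V : ℕ → Set X) (C : Set X) : ℕ → Set X
  | 0 => C
  | n + 1 => dd V C n \ V n

theorem mem_dd (V : ℕ → Set X) (C : Set X) (n : ℕ) (x : X) :
    x ∈ dd V C n ↔ x ∈ C ∧ ∀ k < n, x ∉ V k := by
  induction n with
  | zero => simp [dd]
  | succ n ih =>
    rw [dd, mem_sdiff, ih]
    constructor
    · rintro ⟨⟨h1, h2⟩, h3⟩
      refine ⟨h1, fun k hk => ?_⟩
      rcases Nat.lt_succ_iff_lt_or_eq.1 hk with h | rfl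
      · exact h2 k h
      · exact h3
    · rintro ⟨h1, h2⟩
      exact ⟨⟨h1, fun k hk => h2 k (by omega)⟩, h2 n (by omega)⟩

end gen

/-- a countable union of clopen sets is a disjoint union of clopen sets -/
theorem du_nat {X : Type} [TopologicalSpace X] (C : ℕ → Set X) (hC : ∀ n, IsClopen (C n)) :
    DU (⋃ n, C n) := by
  have hcl : ∀ n k, IsClopen (dd C (C k) n) := fun n k => by
    induction n with
    | zero => exact hC k
    | succ n ih => exact ih.diff (hC n)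
  refine ⟨range fun n => dd C (C n) n, ?_, ?_, ?_⟩
  · rintro _ ⟨n, rfl⟩; exact hcl n n
  · have key : ∀ m n, m < n → Disjoint (dd C (C m) m) (dd C (C n) n) := by
      intro m n hmn
      rw [Set.disjoint_left]
      intro x hx hx'
      rw [mem_dd] at hx hx'
      exact hx'.2 m hmn hx.1
    rintro _ ⟨m, rfl⟩ _ ⟨n, rfl⟩ hne
    rcases lt_trichotomy m n with h | h | h
    · exact key m n h
    · subst h; exact absurd rfl hne
    · exact (key n m h).symm
  · ext x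
    simp only [mem_sUnion, mem_range, exists_exists_eq_and, mem_iUnion]
    constructor
    · rintro ⟨n, hn⟩; exact ⟨n, ((mem_dd _ _ _ _).1 hn).1⟩
    · intro h
      classical
      refine ⟨Nat.find h, (mem_dd _ _ _ _).2 ⟨Nat.find_spec h, fun k hk => Nat.find_min h hk⟩⟩

theorem du_countable {X : Type} [TopologicalSpace X] (M : Set (Set X)) (hM : ∀ C ∈ M, IsClopen C)
    (hc : M.Countable) : DU (⋃₀ M) := by
  rcases M.eq_empty_or_nonempty with h | h
  · subst h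
    exact ⟨∅, by simp, by simp, by simp⟩
  · obtain ⟨C, rfl⟩ := hc.exists_eq_range h
    rw [sUnion_range]
    exact du_nat C fun n => hM _ ⟨n, rfl⟩

theorem models : S_MODELS := by
  intro Ω _ _ _ _ p F hF hnot
  classical
  -- the operations
  let Op : ℕ → Set Ω → Set Ω → Set Ω → Set Ω := fun n C D E => match n with
    | 0 => C ∪ D
    | 1 => C \ D
    | n + 2 => F n C D E
  have hun : ∀ M, Clo Op M → ∀ C ∈ M, ∀ D ∈ M, C ∪ D ∈ M := fun M hM C hC D hD => hM 0 C hC D hD C hC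
  have hdi : ∀ M, Clo Op M → ∀ C ∈ M, ∀ D ∈ M, C \ D ∈ M := fun M hM C hC D hD => hM 1 C hC D hD C hC
  have hop : ∀ M, Clo Op M → ∀ n, ∀ C ∈ M, ∀ D ∈ M, ∀ E ∈ M, F n C D E ∈ M :=
    fun M hM n C hC D hD E hE => hM (n + 2) C hC D hD E hE
  set 𝓑 : Set (Set Ω) := {C | IsClopen C ∧ p ∉ C} with h𝓑
  have hBclo : Clo Op 𝓑 := by
    intro n C hC D hD E hE
    match n with
    | 0 => exact ⟨hC.1.union hD.1, fun h => h.elim hC.2 hD.2⟩
    | 1 => exact ⟨hC.1.diff hD.1, fun h => hC.2 h.1⟩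
    | n + 2 => exact hF n C D E hC.1 hC.2 hD.1 hD.2 hE.1 hE.2
  have hBU : ⋃₀ 𝓑 = {p}ᶜ := by
    ext x
    simp only [mem_sUnion, mem_compl_iff, mem_singleton_iff]
    constructor
    · rintro ⟨C, hC, hx⟩ rfl; exact hC.2 hx
    · intro hx
      obtain ⟨C, hC, hxC, hCs⟩ := compact_exists_isClopen_in_isOpen
        (isOpen_compl_singleton : IsOpen ({p}ᶜ : Set Ω)) hx
      exact ⟨C, ⟨hC, fun h => hCs h rfl⟩, hxC⟩
  -- a counterexample of minimal cardinality
  let P : Cardinal.{0} → Prop := fun κ => ∃ M : Set (Set Ω), M ⊆ 𝓑 ∧ Clo Op M ∧ ¬ DU (⋃₀ M) ∧ #M = κ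
  have hP : ∃ κ, P κ := ⟨_, 𝓑, subset_rfl, hBclo, by rw [hBU]; exact hnot, rfl⟩
  obtain ⟨κ, ⟨M, hMB, hMc, hMn, hMκ⟩, hmin⟩ := WellFounded.has_min
    (Cardinal.lt_wf) {κ | P κ} hP
  have hmin' : ∀ M' : Set (Set Ω), M' ⊆ 𝓑 → Clo Op M' → #M' < κ → DU (⋃₀ M') := by
    intro M' h1 h2 h3
    by_contra h4
    exact hmin _ ⟨M', h1, h2, h4, rfl⟩ h3
  have hκ : ℵ₀ < κ := by
    by_contra h
    rw [not_lt, ← hMκ] at h
    exact hMn (du_countable M (fun C hC => (hMB hC).1) (mk_le_aleph0_iff.1 h |>.to_set))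
  -- well-order `M`
  have hA : #κ.ord.ToType = #M := by rw [mk_ord_toType, hMκ]
  obtain ⟨e⟩ := Cardinal.eq.1 hA
  have : NoMaxOrder κ.ord.ToType := Cardinal.noMaxOrder hκ.le
  have : Nonempty κ.ord.ToType := by
    rw [← mk_ne_zero_iff, mk_ord_toType]; exact (aleph0_pos.trans hκ).ne'
  set f : κ.ord.ToType → Set Ω := fun a => (e a : Set Ω) with hf
  have hfM : ∀ a, f a ∈ M := fun a => (e a).2
  let Nl : κ.ord.ToType → Set (Set Ω) := fun a => cl Op (f '' Iio a)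
  let Nc : κ.ord.ToType → Set (Set Ω) := fun a => cl Op (f '' Iic a)
  have hNlM : ∀ a, Nl a ⊆ M := fun a => cl_sub Op hMc (by rintro _ ⟨b, -, rfl⟩; exact hfM b)
  have hNcM : ∀ a, Nc a ⊆ M := fun a => cl_sub Op hMc (by rintro _ ⟨b, -, rfl⟩; exact hfM b)
  have hIio : ∀ a : κ.ord.ToType, #(Iio a) < κ := fun a => mk_Iio_toType_ord_lt a
  have hNc : ∀ a, DU (⋃₀ Nc a) := by
    intro a
    refine hmin' _ ((hNcM a).trans hMB) (clo_cl _ _) ?_
    obtain ⟨b, hb⟩ := exists_gt a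
    have h1 : #(f '' Iic a) < κ :=
      (mk_le_mk_of_subset (image_mono (fun x (hx : x ≤ a) => lt_of_le_of_lt hx hb))).trans_lt
        (mk_image_le.trans_lt (hIio b))
    have h2 := mk_cl Op (le_max_right (#(f '' Iic a)) ℵ₀) (le_max_left _ _)
    exact h2.trans_lt (max_lt h1 hκ)
  have hcov : ∀ u ∈ ⋃₀ M, ∃ a, u ∈ ⋃₀ Nc a := by
    rintro u ⟨C, hC, hu⟩
    refine ⟨e.symm ⟨C, hC⟩, C, Gen.base ⟨e.symm ⟨C, hC⟩, mem_Iic.2 le_rfl, ?_⟩, hu⟩
    simp [hf]
  have hlc : ∀ a b, a < b → Nc a ⊆ Nl b := fun a b h =>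
    cl_mono Op (image_mono fun x (hx : x ≤ a) => lt_of_le_of_lt hx h)
  have hcc : ∀ a b, a ≤ b → Nc a ⊆ Nc b := fun a b h =>
    cl_mono Op (image_mono fun x (hx : x ≤ a) => hx.trans h)
  -- the claim
  have claim : ∀ a0, ∃ a > a0, ∃ x ∈ ⋃₀ M, x ∈ closure (⋃₀ Nl a) ∧ x ∉ ⋃₀ Nl a := by
    intro a0
    by_contra hcon
    push Not at hcon
    apply hMn
    choose 𝒟 h𝒟c h𝒟d h𝒟u using hNc
    refine ⟨𝒟 a0 ∪ {S | ∃ a > a0, ∃ W ∈ 𝒟 a, S = W \ ⋃₀ Nl a}, ?_, ?_, ?_⟩
    · rintro S (hS | ⟨a, ha, W, hW, rfl⟩)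
      · exact h𝒟c _ _ hS
      · have hWM : W ⊆ ⋃₀ M := by
          intro u hu
          have h1 : u ∈ ⋃₀ 𝒟 a := ⟨W, hW, hu⟩
          rw [h𝒟u] at h1
          exact sUnion_subset_sUnion (hNcM a) h1
        have hopen : IsOpen (⋃₀ Nl a) := isOpen_sUnion fun C hC => (hMB (hNlM a hC)).1.isOpen
        have hWc := h𝒟c a W hW
        refine ⟨hWc.isClosed.sdiff hopen, ?_⟩
        have h2 : W \ ⋃₀ Nl a = W \ closure (⋃₀ Nl a) := by
          apply Subset.antisymm
          · rintro u ⟨h3, h4⟩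
            exact ⟨h3, fun h5 => h4 (hcon a ha u (hWM h3) h5)⟩
          · exact sdiff_subset_sdiff_right subset_closure
        rw [h2]
        exact hWc.isOpen.sdiff isClosed_closure
    · have key : ∀ a b, a < b → ∀ W ∈ 𝒟 a, ∀ W' ∈ 𝒟 b, Disjoint W (W' \ ⋃₀ Nl b) := by
        intro a b hab W hW W' hW'
        rw [Set.disjoint_left]
        rintro u hu ⟨-, hu'⟩
        apply hu'
        have h1 : u ∈ ⋃₀ 𝒟 a := ⟨W, hW, hu⟩
        rw [h𝒟u] at h1
        exact sUnion_subset_sUnion (hlc a b hab) h1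
      rintro S (hS | ⟨a, ha, W, hW, rfl⟩) T (hT | ⟨b, hb, W', hW', rfl⟩) hne
      · exact h𝒟d a0 hS hT hne
      · exact key a0 b hb S hS W' hW'
      · exact (key a0 a ha T hT W hW).symm
      · rcases lt_trichotomy a b with h | h | h
        · exact (key a b h W hW W' hW').mono_left sdiff_subset
        · subst h
          have hWW : W ≠ W' := by rintro rfl; exact hne rfl
          exact (h𝒟d a hW hW' hWW).mono sdiff_subset sdiff_subset
        · exact ((key b a h W' hW' W hW).mono_left sdiff_subset).symm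
    · apply Subset.antisymm
      · rintro u ⟨S, hS | ⟨a, ha, W, hW, rfl⟩, hu⟩
        · have h1 : u ∈ ⋃₀ 𝒟 a0 := ⟨S, hS, hu⟩
          rw [h𝒟u] at h1
          exact sUnion_subset_sUnion (hNcM a0) h1
        · have h1 : u ∈ ⋃₀ 𝒟 a := ⟨W, hW, hu.1⟩
          rw [h𝒟u] at h1
          exact sUnion_subset_sUnion (hNcM a) h1
      · intro u hu
        obtain ⟨a, ha, hamin⟩ := WellFounded.has_min (wellFounded_lt (α := κ.ord.ToType))
          {a | u ∈ ⋃₀ Nc a} (hcov u hu)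
        by_cases h0 : a ≤ a0
        · have h1 : u ∈ ⋃₀ Nc a0 := sUnion_subset_sUnion (hcc a a0 h0) ha
          rw [← h𝒟u] at h1
          obtain ⟨W, hW, huW⟩ := h1
          exact ⟨W, Or.inl hW, huW⟩
        · have h1 : u ∈ ⋃₀ Nc a := ha
          rw [← h𝒟u] at h1
          obtain ⟨W, hW, huW⟩ := h1
          refine ⟨_, Or.inr ⟨a, not_le.1 h0, W, hW, rfl⟩, huW, ?_⟩
          rintro ⟨C, hC, huC⟩
          obtain ⟨a', ha', hC'⟩ := cl_dir Op f a hC
          exact hamin a' ⟨C, hC', huC⟩ ha'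
  choose g hg X hXM hXc hXn using claim
  have hv : ∀ a, ∃ b, X a ∈ f b := by
    intro a
    obtain ⟨C, hC, hx⟩ := hXM a
    exact ⟨e.symm ⟨C, hC⟩, by simpa [hf] using hx⟩
  choose v hv using hv
  let b : ℕ → κ.ord.ToType := fun n => Nat.rec (Classical.arbitrary _) (fun _ c => max (g c) (v c)) n
  have hb : ∀ n, b (n + 1) = max (g (b n)) (v (b n)) := fun n => rfl
  have hlt : ∀ n, g (b n) < g (b (n + 1)) := fun n =>
    lt_of_le_of_lt (by rw [hb]; exact le_max_left _ _) (hg (b (n + 1)))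
  have hlt' : ∀ n, v (b n) < g (b (n + 1)) := fun n =>
    lt_of_le_of_lt (by rw [hb]; exact le_max_right _ _) (hg (b (n + 1)))
  have hmono : Monotone fun n => g (b n) := monotone_nat_of_le_succ fun n => (hlt n).le
  have hNmono : ∀ m n, m ≤ n → Nl (g (b m)) ⊆ Nl (g (b n)) := fun m n h =>
    cl_mono Op (image_mono (Iio_subset_Iio (hmono h)))
  have hVmem : ∀ n, f (v (b n)) ∈ Nl (g (b (n + 1))) := fun n =>
    Gen.base ⟨_, hlt' n, rfl⟩
  refine ⟨{
    M := fun n => Nl (g (b n))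
    x := fun n => X (b n)
    V := fun n => dd (fun n => f (v (b n))) (f (v (b n))) n
    clopen := fun i C hC => hMB (hNlM _ hC)
    union := fun i => hun _ (clo_cl _ _)
    diff := fun i => hdi _ (clo_cl _ _)
    op := fun i => hop _ (clo_cl _ _)
    mono := fun i => hNmono i (i + 1) (Nat.le_succ i)
    nmem := fun i => hXn (b i)
    cl := fun i => hXc (b i)
    mem := fun i => ?_
    Vmem := fun i => ?_
    disj := fun i j hij => ?_ }⟩
  · rw [mem_dd]
    refine ⟨hv _, fun k hk hx => hXn (b i) ⟨_, hNmono (k + 1) i hk (hVmem k), hx⟩⟩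
  · have h1 : ∀ n ≤ i, dd (fun n => f (v (b n))) (f (v (b i))) n ∈ Nl (g (b (i + 1))) := by
      intro n hn
      induction n with
      | zero => exact hVmem i
      | succ n ih =>
        exact hdi _ (clo_cl _ _) _ (ih (by omega)) _ (hNmono (n + 1) (i + 1) (by omega) (hVmem n))
    exact h1 i le_rfl
  · rw [Set.disjoint_left]
    intro x hx hx'
    rw [mem_dd] at hx hx'
    exact hx'.2 i hij hx.1

end Pool.Agent.W340.DT
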